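import Pool.Agent.helper54.UG.Spec3

/-!
# Row ug:PEL
-/

set_option autoImplicit false

namespace Pool.Agent.UG

open Matrix Pool.Agent.H48SL

section PEL_bf

variable {n : ℕ} (S : MQ n)

theorem PEL_add_left (a b c : Fin n → ℚ) : bf S (a + b) c = bf S a c + bf S b c := by
  unfold bf; rw [add_dotProduct]

theorem PEL_add_right (a b c : Fin n → ℚ) : bf S a (b + c) = bf S a b + bf S a c := by
  unfold bf; rw [mulVec_add, dotProduct_add]

theorem PEL_smul_left (r : ℚ) (a c : Fin n → ℚ) : bf S (r • a) c = r * bf S a c := by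
  unfold bf; rw [smul_dotProduct, smul_eq_mul]

theorem PEL_smul_right (r : ℚ) (a c : Fin n → ℚ) : bf S a (r • c) = r * bf S a c := by
  unfold bf; rw [mulVec_smul, dotProduct_smul, smul_eq_mul]

theorem PEL_symm (hS : Sᵀ = S) (a b : Fin n → ℚ) : bf S a b = bf S b a := by
  unfold bf
  rw [dotProduct_mulVec, ← mulVec_transpose, hS, dotProduct_comm]

theorem PEL_ext (M N : MQ n) (h : ∀ s, M *ᵥ s = N *ᵥ s) : M = N := by
  ext i j
  have h1 := congrFun (h (Pi.single j 1)) i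
  rw [mulVec_single_one, mulVec_single_one] at h1
  exact h1

theorem PEL_mat (T : MQ n) (h : ∀ s s', bf S (T *ᵥ s) (T *ᵥ s') = bf S s s') :
    Tᵀ * S * T = S := by
  ext i j
  have h1 := h (Pi.single i 1) (Pi.single j 1)
  have e : ∀ s s' : Fin n → ℚ, bf S (T *ᵥ s) (T *ᵥ s') = s ⬝ᵥ ((Tᵀ * S * T) *ᵥ s') := by
    intro s s'
    unfold bf
    rw [← mulVec_mulVec, ← mulVec_mulVec, dotProduct_mulVec s, vecMul_transpose]
  rw [e] at h1
  unfold bf at h1
  rw [single_one_dotProduct, single_one_dotProduct, mulVec_single_one, mulVec_single_one] at h1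
  exact h1

/-- the isometry `1 + p M₁ + t M₂` -/
def PEL_T (x y : Fin n → ℚ) (A C p t : ℚ) : MQ n :=
  1 + vecMulVec x ((p / A) • (S *ᵥ x) - t • (S *ᵥ y)) +
    vecMulVec y (t • (S *ᵥ x) - (p / C) • (S *ᵥ y))

theorem PEL_T_mulVec (x y : Fin n → ℚ) (A C p t : ℚ) (s : Fin n → ℚ) :
    PEL_T S x y A C p t *ᵥ s = s + (p / A * bf S s x - t * bf S s y) • x +
      (t * bf S s x - p / C * bf S s y) • y := by
  have e : ∀ a b : Fin n → ℚ, vecMulVec a b *ᵥ s = (b ⬝ᵥ s) • a := by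
    intro a b
    ext i
    simp only [mulVec, dotProduct, vecMulVec_apply, Pi.smul_apply, smul_eq_mul, Finset.sum_mul]
    refine Finset.sum_congr rfl fun k _ => ?_
    ring
  have e1 : ∀ a : Fin n → ℚ, (S *ᵥ a) ⬝ᵥ s = bf S s a := fun a => dotProduct_comm _ _
  unfold PEL_T
  rw [add_mulVec, add_mulVec, one_mulVec, e, e, sub_dotProduct, sub_dotProduct, smul_dotProduct,
    smul_dotProduct, smul_dotProduct, smul_dotProduct, e1, e1]
  simp only [smul_eq_mul]

theorem PEL_T_apply (x y : Fin n → ℚ) (A C p t : ℚ) (i j : Fin n) :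
    PEL_T S x y A C p t i j = (1 : MQ n) i j +
      p * (x i * (S *ᵥ x) j / A - y i * (S *ᵥ y) j / C) +
      t * (y i * (S *ᵥ x) j - x i * (S *ᵥ y) j) := by
  unfold PEL_T
  simp only [Matrix.add_apply, vecMulVec_apply, Pi.sub_apply, Pi.smul_apply, smul_eq_mul]
  ring

/-- invariance -/
theorem PEL_inv (hS : Sᵀ = S) (x y : Fin n → ℚ) (A C p t : ℚ) (hA : A ≠ 0) (hC : C ≠ 0)
    (hx : bf S x x = A) (hy : bf S y y = -C) (hxy : bf S x y = 0)
    (h : p ^ 2 + 2 * p = A * C * t ^ 2) (s s' : Fin n → ℚ) :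
    bf S (PEL_T S x y A C p t *ᵥ s) (PEL_T S x y A C p t *ᵥ s') = bf S s s' := by
  rw [PEL_T_mulVec, PEL_T_mulVec]
  simp only [PEL_add_left, PEL_add_right, PEL_smul_left, PEL_smul_right, hx, hy, hxy,
    PEL_symm S hS y x, PEL_symm S hS x s', PEL_symm S hS y s']
  generalize bf S s x = X
  generalize bf S s y = Y
  generalize bf S s' x = X'
  generalize bf S s' y = Y'
  generalize bf S s s' = Z
  field_simp
  linear_combination (C * X * X' - A * Y * Y') * h

/-- the square -/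
theorem PEL_sq (hS : Sᵀ = S) (x y : Fin n → ℚ) (A C p t : ℚ) (hA : A ≠ 0) (hC : C ≠ 0)
    (hx : bf S x x = A) (hy : bf S y y = -C) (hxy : bf S x y = 0)
    (h : p ^ 2 + 2 * p = A * C * t ^ 2) :
    PEL_T S x y A C p t * PEL_T S x y A C p t =
      PEL_T S x y A C (2 * (A * C) * t ^ 2) (2 * (1 + p) * t) := by
  refine PEL_ext _ _ fun s => ?_
  rw [← mulVec_mulVec, PEL_T_mulVec S x y A C p t (PEL_T S x y A C p t *ᵥ s),
    PEL_T_mulVec S x y A C p t s, PEL_T_mulVec]
  simp only [PEL_add_left, PEL_smul_left, hx, hy, hxy, PEL_symm S hS y x]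
  generalize bf S s x = X
  generalize bf S s y = Y
  have e1 : (p / A * X - t * Y) + (p / A * (X + (p / A * X - t * Y) * A +
      (t * X - p / C * Y) * 0) - t * (Y + (p / A * X - t * Y) * 0 +
      (t * X - p / C * Y) * -C)) =
      2 * (A * C) * t ^ 2 / A * X - 2 * (1 + p) * t * Y := by
    field_simp
    linear_combination C * X * h
  have e2 : (t * X - p / C * Y) + (t * (X + (p / A * X - t * Y) * A +
      (t * X - p / C * Y) * 0) - p / C * (Y + (p / A * X - t * Y) * 0 +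
      (t * X - p / C * Y) * -C)) =
      2 * (1 + p) * t * X - 2 * (A * C) * t ^ 2 / C * Y := by
    field_simp
    linear_combination (-(A * Y)) * h
  rw [← e1, ← e2, add_smul, add_smul]
  abel

end PEL_bf

/-- common denominators -/
theorem PEL_den {ι : Type} [Fintype ι] (f : ι → ℚ) :
    ∃ N : ℕ, 0 < N ∧ ∀ i, ∃ z : ℤ, (N : ℚ) * f i = z := by
  refine ⟨∏ i, (f i).den, Finset.prod_pos fun i _ => (f i).pos, fun i => ?_⟩
  obtain ⟨m, hm⟩ := Finset.dvd_prod_of_mem (fun i => (f i).den) (Finset.mem_univ i)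
  refine ⟨m * (f i).num, ?_⟩
  have h1 : (f i) * (f i).den = (f i).num := Rat.mul_den_eq_num (f i)
  rw [hm]
  push_cast
  linear_combination (m : ℚ) * h1

theorem PEL : PEL_stmt := by
  intro n S hS hdet x y hxy hx hy hsq
  obtain ⟨A, hA⟩ : ∃ A, bf S x x = A := ⟨_, rfl⟩
  obtain ⟨C, hC⟩ : ∃ C, bf S y y = -C := ⟨-bf S y y, by ring⟩
  rw [hA] at hx hsq
  rw [hC] at hy hsq
  have hC0 : 0 < C := by linarith
  have e0 : -(A * -C) = A * C := by ring
  rw [e0] at hsq
  -- denominators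
  obtain ⟨N, hN, hden⟩ := PEL_den (ι := (Fin n × Fin n) ⊕ ((Fin n × Fin n) ⊕ Unit))
    (Sum.elim (fun i => x i.1 * (S *ᵥ x) i.2 / A - y i.1 * (S *ᵥ y) i.2 / C)
      (Sum.elim (fun i => y i.1 * (S *ᵥ x) i.2 - x i.1 * (S *ᵥ y) i.2) (fun _ => A * C)))
  have h1 : ∀ i j, ∃ z : ℤ, (N : ℚ) * (x i * (S *ᵥ x) j / A - y i * (S *ᵥ y) j / C) = z :=
    fun i j => hden (Sum.inl (i, j))
  have h2 : ∀ i j, ∃ z : ℤ, (N : ℚ) * (y i * (S *ᵥ x) j - x i * (S *ᵥ y) j) = z :=
    fun i j => hden (Sum.inr (Sum.inl (i, j)))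
  obtain ⟨z3, h3⟩ : ∃ z : ℤ, (N : ℚ) * (A * C) = z := hden (Sum.inr (Sum.inr ()))
  choose z1 hz1 using h1
  choose z2 hz2 using h2
  have hNq : (0 : ℚ) < N := by exact_mod_cast hN
  -- the Pell equation
  have hdq : ((N * z3 : ℤ) : ℚ) = A * C * N ^ 2 := by
    push_cast
    rw [← h3]
    ring
  have hdpos : 0 < (N : ℤ) * z3 := by
    have : (0 : ℚ) < ((N * z3 : ℤ) : ℚ) := by
      rw [hdq]
      positivity
    exact_mod_cast this
  have hdns : ¬ IsSquare ((N : ℤ) * z3) := by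
    rintro ⟨r, hr⟩
    apply hsq
    refine ⟨(r : ℚ) / N, ?_⟩
    have h4 : ((r * r : ℤ) : ℚ) = A * C * N ^ 2 := by rw [← hr]; exact hdq
    push_cast at h4
    field_simp
    linear_combination -h4
  obtain ⟨x₀, y₀, hpell, hy₀⟩ := Pell.exists_of_not_isSquare hdpos hdns
  have hpq : (x₀ : ℚ) ^ 2 - A * C * (N * y₀) ^ 2 = 1 := by
    have h4 : ((x₀ ^ 2 - (N : ℤ) * z3 * y₀ ^ 2 : ℤ) : ℚ) = 1 := by
      rw [hpell]
      norm_num
    rw [Int.cast_sub, Int.cast_mul, hdq] at h4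
    push_cast at h4
    linear_combination h4
  have hrel : ((x₀ : ℚ) - 1) ^ 2 + 2 * ((x₀ : ℚ) - 1) = A * C * (N * y₀) ^ 2 := by
    linear_combination hpq
  have hx₀ : (x₀ : ℚ) ≠ 0 := by
    intro h0
    rw [h0] at hpq
    have : 0 ≤ A * C * (N * (y₀ : ℚ)) ^ 2 := by positivity
    linarith
  have hy₀q : (y₀ : ℚ) ≠ 0 := by exact_mod_cast hy₀
  obtain ⟨t, ht⟩ : ∃ t : ℚ, t = N * y₀ := ⟨_, rfl⟩
  rw [← ht] at hrel hpq
  have hsqT := PEL_sq S hS x y A C ((x₀ : ℚ) - 1) t hx.ne' hC0.ne' hA hC hxy hrel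
  have e5 : (1 : ℚ) + ((x₀ : ℚ) - 1) = x₀ := by ring
  rw [e5] at hsqT
  -- the matrix
  obtain ⟨p, hp⟩ : ∃ p : ℚ, p = 2 * (A * C) * t ^ 2 := ⟨_, rfl⟩
  obtain ⟨q, hq⟩ : ∃ q : ℚ, q = 2 * x₀ * t := ⟨_, rfl⟩
  rw [← hp, ← hq] at hsqT
  have hrel' : p ^ 2 + 2 * p = A * C * q ^ 2 := by
    rw [hp, hq]
    linear_combination (-(4 * (A * C) * t ^ 2)) * hpq
  have hp0 : 0 ≤ p := by rw [hp]; positivity
  have ht0 : t ≠ 0 := by rw [ht]; exact mul_ne_zero hNq.ne' hy₀q
  have hq0 : q ≠ 0 := by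
    rw [hq]
    exact mul_ne_zero (mul_ne_zero two_ne_zero hx₀) ht0
  have hinv := PEL_inv S hS x y A C p q hx.ne' hC0.ne' hA hC hxy hrel'
  have hT0 := PEL_mat S _ (PEL_inv S hS x y A C ((x₀ : ℚ) - 1) t hx.ne' hC0.ne' hA hC hxy hrel)
  have hT := PEL_mat S _ hinv
  have hdetT : (PEL_T S x y A C p q).det = 1 := by
    rw [← hsqT, det_mul]
    have h6 := congrArg det hT0
    rw [det_mul, det_mul, det_transpose] at h6
    have h7 : S.det * ((PEL_T S x y A C ((x₀ : ℚ) - 1) t).det *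
        (PEL_T S x y A C ((x₀ : ℚ) - 1) t).det) = S.det * 1 := by
      linear_combination h6
    exact mul_left_cancel₀ hdet h7
  let Z : Matrix (Fin n) (Fin n) ℤ := fun i j =>
    (1 : Matrix (Fin n) (Fin n) ℤ) i j + 2 * z3 * z1 i j * y₀ ^ 2 + 2 * x₀ * y₀ * z2 i j
  have hZ : (Int.castRingHom ℚ).mapMatrix Z = PEL_T S x y A C p q := by
    ext i j
    rw [PEL_T_apply]
    show (((1 : Matrix (Fin n) (Fin n) ℤ) i j + 2 * z3 * z1 i j * y₀ ^ 2 +
      2 * x₀ * y₀ * z2 i j : ℤ) : ℚ) = _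
    have e6 : (((1 : Matrix (Fin n) (Fin n) ℤ) i j : ℤ) : ℚ) = (1 : MQ n) i j := by
      rw [Matrix.one_apply, Matrix.one_apply]
      split_ifs <;> norm_num
    push_cast
    rw [e6, ← hz1 i j, ← hz2 i j, ← h3, hp, hq, ht]
    ring
  have hZdet : Z.det = 1 := by
    have h8 : ((Z.det : ℤ) : ℚ) = 1 := by
      have h9 := (Int.castRingHom ℚ).map_det Z
      rw [hZ, hdetT] at h9
      exact h9
    exact_mod_cast h8
  let g : SLZ n := ⟨Z, hZdet⟩
  have hg : qg g = PEL_T S x y A C p q := hZ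
  refine ⟨g, by rw [hg]; exact hT, ?_, ?_⟩
  · intro s h4 h5
    rw [hg, PEL_T_mulVec, h4, h5]
    simp
  · intro j hj w hw c hcw
    rw [qg_pow, hg] at hcw
    -- invariance of the powers
    have hinvj : ∀ j : ℕ, ∀ s s', bf S (PEL_T S x y A C p q ^ j *ᵥ s)
        (PEL_T S x y A C p q ^ j *ᵥ s') = bf S s s' := by
      intro j
      induction j with
      | zero => intro s s'; rw [pow_zero, one_mulVec, one_mulVec]
      | succ j ih =>
        intro s s'
        rw [pow_succ', ← mulVec_mulVec, ← mulVec_mulVec, hinv, ih]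
    have hTx : PEL_T S x y A C p q *ᵥ x = (1 + p) • x + (q * A) • y := by
      rw [PEL_T_mulVec, hA, hxy]
      have e7 : p / A * A - q * 0 = p := by
        field_simp
        ring
      rw [e7]
      simp only [mul_zero, sub_zero]
      module
    have hTy : PEL_T S x y A C p q *ᵥ y = (1 + p) • y + (q * C) • x := by
      rw [PEL_T_mulVec, hC, PEL_symm S hS y x, hxy]
      have e7 : q * 0 - p / C * -C = p := by
        field_simp
        ring
      rw [e7]
      simp only [mul_zero, zero_sub]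
      module
    have hpow : ∀ j : ℕ, 1 ≤ j → ∃ a b : ℚ, 0 < a ∧ 0 < b * q ∧
        PEL_T S x y A C p q ^ j *ᵥ x = a • x + (b * A) • y ∧
        PEL_T S x y A C p q ^ j *ᵥ y = a • y + (b * C) • x := by
      intro j hj
      induction j, hj using Nat.le_induction with
      | base =>
        refine ⟨1 + p, q, by linarith, mul_self_pos.2 hq0, ?_, ?_⟩
        · rw [pow_one, hTx]
        · rw [pow_one, hTy]
      | succ j hj ih =>
        obtain ⟨a, b, ha, hb, h4, h5⟩ := ih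
        refine ⟨a * (1 + p) + b * q * (A * C), a * q + b * (1 + p), ?_, ?_, ?_, ?_⟩
        · have : 0 < a * (1 + p) := mul_pos ha (by linarith)
          have : 0 < b * q * (A * C) := by positivity
          linarith
        · have h6 : 0 < a * (q * q) := mul_pos ha (mul_self_pos.2 hq0)
          have h7 : 0 < b * q * (1 + p) := mul_pos hb (by linarith)
          linarith
        · rw [pow_succ', ← mulVec_mulVec, h4, mulVec_add, mulVec_smul, mulVec_smul, hTx, hTy]
          module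
        · rw [pow_succ', ← mulVec_mulVec, h5, mulVec_add, mulVec_smul, mulVec_smul, hTx, hTy]
          module
    obtain ⟨a, b, ha, hb, h4, h5⟩ := hpow j hj
    have hb0 : b ≠ 0 := by
      rintro rfl
      rw [zero_mul] at hb
      exact lt_irrefl _ hb
    have h6 := hinvj j w x
    have h7 := hinvj j w y
    rw [hcw, h4, PEL_smul_left, PEL_add_right, PEL_smul_right, PEL_smul_right] at h6
    rw [hcw, h5, PEL_smul_left, PEL_add_right, PEL_smul_right, PEL_smul_right] at h7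
    generalize bf S w x = X at h6 h7 hw
    generalize bf S w y = Y at h6 h7 hw
    have hc0 : c ≠ 0 := by
      rintro rfl
      rw [zero_mul] at h6 h7
      rcases hw with hw | hw
      · exact hw h6.symm
      · exact hw h7.symm
    have h8 : c * b * (A * Y ^ 2 - C * X ^ 2) = 0 := by
      linear_combination Y * h6 - X * h7
    have h9 : A * Y ^ 2 = C * X ^ 2 := by
      rcases mul_eq_zero.1 h8 with h | h
      · exact absurd h (mul_ne_zero hc0 hb0)
      · linarith
    have hY : Y ≠ 0 := by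
      intro hY
      rw [hY] at h9
      have h10 : C * X ^ 2 = 0 := by rw [← h9]; ring
      rcases mul_eq_zero.1 h10 with h | h
      · exact hC0.ne' h
      · have hX : X = 0 := by
          by_contra hX
          exact pow_ne_zero 2 hX h
        rcases hw with hw | hw
        · exact hw hX
        · exact hw hY
    apply hsq
    refine ⟨C * X / Y, ?_⟩
    field_simp
    linear_combination h9

end Pool.Agent.UG
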